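import Mathlib
import Pool.Agent.Lib.MP_5dec12_pr.Defs
import Pool.Agent.Lib.MP_5dec12_pr.Main

/-!
# Decomposable processes that are backward Brownian motions are two-sided Brownian motions

Positive answer to Q1 (hence to Q2). The space `Ω'` is any extension of `Ω` (possibly `Ω` itself,
with `π` the identity) that carries a uniform variable independent of the process.
-/

open MeasureTheory Set ProbabilityTheory
open scoped NNReal

namespace Pool.Agent.Results.MP_5dec12_pr.DecomposableBBM

open Pool.Agent.Lib.MP_5dec12_pr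

theorem result {Ω : Type*} {mΩ : MeasurableSpace Ω} {P : Measure Ω}
    {X : ℝ → Ω → ℝ} (hX : ∀ t, Measurable (X t))
    (hdec : IsDecomposable X P) (hbbm : IsBBM X P)
    {Ω' : Type*} {mΩ' : MeasurableSpace Ω'} {P' : Measure Ω'}
    {π : Ω' → Ω} (hπ : MeasurePreserving π P' P)
    {V : Ω' → ℝ} (hV : Measurable V) (hVl : P'.map V = volume.restrict (Icc (0 : ℝ) 1))
    (hI : IndepFun (fun ω t => X t (π ω)) V P') :
    IsTwoSidedBM (fun t ω => X t (π ω)) P' :=
  main hX hdec hbbm hπ hV hVl hI

end Pool.Agent.Results.MP_5dec12_pr.DecomposableBBM
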